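import Pool.Agent.X274.LR.Coset

/-! The rank of an odd distribution-like function on `(ℤ/q)ˣ` is bounded by the number of
characters satisfying no relation. -/

namespace Pool.Agent.X274.LR

open Finset

section fourier

variable {q : ℕ} [NeZero q]

/-- a character as a function on units -/
noncomputable def chi (χ : DirichletCharacter ℂ q) : (ZMod q)ˣ → ℂ := fun u => χ (u : ZMod q)

/-- Fourier coefficient -/
noncomputable def hat (g : (ZMod q)ˣ → ℂ) (χ : DirichletCharacter ℂ q) : ℂ :=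
  ∑ v : (ZMod q)ˣ, g v * χ ((v⁻¹ : (ZMod q)ˣ) : ZMod q)

theorem fourier (g : (ZMod q)ˣ → ℂ) :
    g = ∑ χ : DirichletCharacter ℂ q, ((Nat.totient q : ℂ)⁻¹ * hat g χ) • chi χ := by
  have hq : (Nat.totient q : ℂ) ≠ 0 := by
    have := Nat.totient_pos.mpr (NeZero.pos q)
    exact_mod_cast this.ne'
  ext u
  rw [Finset.sum_apply]
  simp only [Pi.smul_apply, smul_eq_mul, hat, chi]
  have h1 : ∀ χ : DirichletCharacter ℂ q,
      (Nat.totient q : ℂ)⁻¹ * (∑ v : (ZMod q)ˣ, g v * χ ((v⁻¹ : (ZMod q)ˣ) : ZMod q)) * χ (u : ZMod q)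
      = ∑ v : (ZMod q)ˣ, (Nat.totient q : ℂ)⁻¹ * g v *
          (χ ((v : ZMod q)⁻¹) * χ (u : ZMod q)) := by
    intro χ
    rw [mul_assoc, Finset.sum_mul, Finset.mul_sum]
    refine sum_congr rfl fun v _ => ?_
    rw [ZMod.inv_coe_unit]
    ring
  simp_rw [h1]
  rw [sum_comm]
  simp_rw [← mul_sum]
  have h2 : ∀ v : (ZMod q)ˣ, ∑ χ : DirichletCharacter ℂ q, χ ((v : ZMod q)⁻¹) * χ (u : ZMod q)
      = if v = u then (Nat.totient q : ℂ) else 0 := by
    intro v
    rw [DirichletCharacter.sum_char_inv_mul_char_eq ℂ v.isUnit]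
    simp only [Units.val_inj]
  simp_rw [h2]
  rw [sum_eq_single u]
  · rw [if_pos rfl]; field_simp
  · intro v _ hv; rw [if_neg hv, mul_zero]
  · intro h; exact absurd (mem_univ u) h

open Classical in
theorem hat_zero_of_trivial (g : (ZMod q)ˣ → ℂ) (χ : DirichletCharacter ℂ q)
    (H : Subgroup (ZMod q)ˣ) (hχ : ∀ h ∈ H, χ (h : ZMod q) = 1)
    (hg : ∀ u₀ : (ZMod q)ˣ, (∑ u : (ZMod q)ˣ, if u ∈ H then g (u₀ * u) else 0) = 0) :
    hat g χ = 0 := by
  have h1 : ∀ h ∈ H, hat g χ = ∑ v : (ZMod q)ˣ, g (v * h) * χ ((v⁻¹ : (ZMod q)ˣ) : ZMod q) := by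
    intro h hh
    unfold hat
    refine (Fintype.sum_equiv (Equiv.mulRight h) _ _ fun v => ?_).symm
    simp only [Equiv.coe_mulRight]
    congr 1
    have : (((v * h)⁻¹ : (ZMod q)ˣ) : ZMod q) = ((v⁻¹ : (ZMod q)ˣ) : ZMod q) * ((h⁻¹ : (ZMod q)ˣ) : ZMod q) := by
      rw [mul_inv, Units.val_mul]
    rw [this, map_mul, hχ h⁻¹ (inv_mem hh), mul_one]
  have h2 : (Nat.card H : ℂ) * hat g χ = 0 := by
    have h3 : (∑ h : (ZMod q)ˣ, if h ∈ H then hat g χ else 0) = (Nat.card H : ℂ) * hat g χ := by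
      rw [← sum_filter, sum_const, nsmul_eq_mul]
      congr 2
      rw [Nat.card_eq_fintype_card, Fintype.card_subtype]
    rw [← h3]
    have h4 : (∑ h : (ZMod q)ˣ, if h ∈ H then hat g χ else 0)
        = ∑ h : (ZMod q)ˣ, ∑ v : (ZMod q)ˣ, (χ ((v⁻¹ : (ZMod q)ˣ) : ZMod q)) *
          (if h ∈ H then g (v * h) else 0) := by
      refine sum_congr rfl fun h _ => ?_
      split_ifs with hh
      · rw [h1 h hh]
        refine sum_congr rfl fun v _ => ?_
        ring
      · simp
    rw [h4, sum_comm]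
    refine sum_eq_zero fun v _ => ?_
    rw [← mul_sum, hg v, mul_zero]
  have h5 : (Nat.card H : ℂ) ≠ 0 := by
    exact_mod_cast Nat.card_pos.ne'
  exact (mul_eq_zero.mp h2).resolve_left h5

theorem hat_zero_of_even (g : (ZMod q)ˣ → ℂ) (χ : DirichletCharacter ℂ q) (hχ : χ.Even)
    (hg : ∀ u : (ZMod q)ˣ, g (-u) = - g u) : hat g χ = 0 := by
  have h1 : hat g χ = - hat g χ := by
    conv_lhs => unfold hat
    rw [← Fintype.sum_equiv (Equiv.neg (ZMod q)ˣ) (fun v => g (-v) * χ (((-v)⁻¹ : (ZMod q)ˣ) : ZMod q))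
      _ (fun v => rfl)]
    unfold hat
    rw [← sum_neg_distrib]
    refine sum_congr rfl fun v _ => ?_
    rw [hg]
    have : (((-v)⁻¹ : (ZMod q)ˣ) : ZMod q) = - ((v⁻¹ : (ZMod q)ˣ) : ZMod q) := by
      rw [inv_neg, Units.val_neg]
    rw [this, hχ.eval_neg]
    ring
  linear_combination (1 / 2 : ℂ) * h1

end fourier

open Classical in
/-- rank bound -/
theorem rank_le {q : ℕ} [NeZero q] {V : Type*} [AddCommGroup V] [Module ℚ V]
    (F : (ZMod q)ˣ → V) (hneg : ∀ u, F u + F (-u) = 0) (S : Set (Subgroup (ZMod q)ˣ))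
    (hrel : ∀ H ∈ S, ∀ u₀ : (ZMod q)ˣ, (∑ u : (ZMod q)ˣ, if u ∈ H then F (u₀ * u) else 0) = 0) :
    ∃ T : Finset (ZMod q)ˣ, (∀ u, F u ∈ Submodule.span ℚ (F '' T)) ∧
      T.card ≤ Nat.card {χ : DirichletCharacter ℂ q //
        χ.Odd ∧ ∀ H ∈ S, ∃ h ∈ H, χ (h : ZMod q) ≠ 1} := by
  obtain ⟨b, hb1, hb2, hb3⟩ := exists_linearIndependent ℚ (Set.range F)
  have hbfin : b.Finite := (Set.finite_range F).subset hb1
  -- choose preimages
  choose! r hr using fun (v : V) (hv : v ∈ b) => hb1 hv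
  have hrinj : Set.InjOn r b := by
    intro x hx y hy h
    rw [← hr x hx, ← hr y hy, h]
  set T : Finset (ZMod q)ˣ := hbfin.toFinset.image r with hT
  have hFT : F '' (T : Set (ZMod q)ˣ) = b := by
    ext v
    simp only [hT, coe_image, Set.Finite.coe_toFinset, Set.mem_image]
    constructor
    · rintro ⟨_, ⟨w, hw, rfl⟩, rfl⟩
      rw [hr w hw]; exact hw
    · intro hv
      exact ⟨r v, ⟨v, hv, rfl⟩, hr v hv⟩
  refine ⟨T, fun u => ?_, ?_⟩
  · rw [hFT, hb2]
    exact Submodule.subset_span ⟨u, rfl⟩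
  -- the count
  have hcard : T.card = hbfin.toFinset.card := by
    rw [hT, card_image_of_injOn]
    simpa using hrinj
  rw [hcard]
  have : Fintype b := hbfin.fintype
  have hcb : hbfin.toFinset.card = Fintype.card b := by
    rw [Set.Finite.card_toFinset]
  rw [hcb]
  -- dual functionals
  obtain ⟨g, hg⟩ := LinearMap.exists_leftInverse_of_injective
    (Finsupp.linearCombination ℚ ((↑) : b → V)) (by
      rw [LinearMap.ker_eq_bot]; exact hb3)
  have hgv : ∀ i : b, g (i : V) = Finsupp.single i 1 := by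
    intro i
    have := LinearMap.congr_fun hg (Finsupp.single i 1)
    simpa using this
  set f : b → ((ZMod q)ˣ → ℂ) := fun i u => (((g (F u)) i : ℚ) : ℂ) with hf
  set good := {χ : DirichletCharacter ℂ q // χ.Odd ∧ ∀ H ∈ S, ∃ h ∈ H, χ (h : ZMod q) ≠ 1}
    with hgood
  have : Finite (DirichletCharacter ℂ q) := inferInstance
  have : Finite good := Subtype.finite
  have : Fintype good := Fintype.ofFinite good
  have hfneg : ∀ i u, f i (-u) = - f i u := by
    intro i u
    have h1 : F (-u) = - F u := by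
      rw [eq_neg_iff_add_eq_zero, add_comm]; exact hneg u
    simp only [hf, h1, map_neg, Finsupp.neg_apply, Rat.cast_neg]
  have hfrel : ∀ i, ∀ H ∈ S, ∀ u₀ : (ZMod q)ˣ,
      (∑ u : (ZMod q)ˣ, if u ∈ H then f i (u₀ * u) else 0) = 0 := by
    intro i H hH u₀
    have h1 := congrArg (fun v => (((g v) i : ℚ) : ℂ)) (hrel H hH u₀)
    simp only [map_sum, map_zero, Finsupp.coe_zero, Pi.zero_apply, Rat.cast_zero] at h1
    refine Eq.trans ?_ h1
    rw [Finsupp.finsetSum_apply, Rat.cast_sum]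
    refine sum_congr rfl fun u _ => ?_
    split_ifs <;> simp [hf]
  have hspan : ∀ i, f i ∈ Submodule.span ℂ (Set.range fun χ : good => chi χ.1) := by
    intro i
    rw [fourier (f i)]
    refine Submodule.sum_mem _ fun χ _ => ?_
    by_cases hχ : χ.Odd ∧ ∀ H ∈ S, ∃ h ∈ H, χ (h : ZMod q) ≠ 1
    · exact Submodule.smul_mem _ _ (Submodule.subset_span ⟨⟨χ, hχ⟩, rfl⟩)
    · have h0 : hat (f i) χ = 0 := by
        rw [not_and_or] at hχ
        rcases hχ with h | h
        · rcases χ.even_or_odd with he | ho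
          · exact hat_zero_of_even _ _ he (hfneg i)
          · exact absurd ho h
        · push Not at h
          obtain ⟨H, hH, hh⟩ := h
          exact hat_zero_of_trivial _ _ H hh (hfrel i H hH)
      rw [h0, mul_zero, zero_smul]
      exact Submodule.zero_mem _
  have hli : LinearIndependent ℂ f := by
    rw [Fintype.linearIndependent_iff]
    intro c hc j
    have h1 := congrFun hc (r j)
    rw [Finset.sum_apply] at h1
    simp only [Pi.smul_apply, smul_eq_mul, Pi.zero_apply, hf] at h1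
    rw [hr j j.2, hgv j, sum_eq_single j] at h1
    · simpa using h1
    · intro i _ hij
      rw [Finsupp.single_eq_of_ne hij]
      simp
    · intro h; exact absurd (mem_univ j) h
  set Q := Submodule.span ℂ (Set.range fun χ : good => chi χ.1) with hQ
  have hli2 : LinearIndependent ℂ (fun i : b => (⟨f i, hspan i⟩ : Q)) := by
    refine LinearIndependent.of_comp Q.subtype ?_
    exact hli
  have h1 := hli2.fintype_card_le_finrank
  have h2 : Module.finrank ℂ Q ≤ Fintype.card good := finrank_range_le_card _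
  rw [Nat.card_eq_fintype_card]
  exact h1.trans h2

end Pool.Agent.X274.LR
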