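import Pool.Agent.X274.LR.Fourteen

/-! The relations over the cosets of the preimage of `⟨p⟩` in `(ℤ/q)ˣ`. -/

namespace Pool.Agent.X274.LR

open Finset

theorem sum_mult {A : Type*} [AddCommMonoid A] (f : ℕ → A) {p : ℕ} (hp : 0 < p) (N : ℕ) :
    (∑ a ∈ range (N * p), if p ∣ a + 1 then f (a + 1) else 0) = ∑ k ∈ range N, f ((k + 1) * p) := by
  induction N with
  | zero => simp
  | succ N ih =>
    rw [Nat.succ_mul, sum_range_add, ih, sum_range_succ]
    congr 1
    rw [sum_eq_single (p - 1)]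
    · have : N * p + (p - 1) + 1 = (N + 1) * p := by
        rw [Nat.succ_mul]; omega
      rw [this, if_pos (Dvd.intro_left _ rfl)]
    · intro b hb hb2
      have hb := mem_range.mp hb
      rw [if_neg]
      intro hd
      have h1 : p ∣ b + 1 := by
        rw [add_assoc] at hd
        exact (Nat.dvd_add_right (Dvd.intro_left _ rfl)).mp hd
      have := Nat.le_of_dvd (by omega) h1
      omega
    · intro h
      exact absurd (mem_range.mpr (by omega)) h

/-- sum over the units as a sum over naturals -/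
theorem sum_units {A : Type*} [AddCommMonoid A] (f : ℕ → A) {q : ℕ} [NeZero q] (hq : 1 < q) :
    ∑ u : (ZMod q)ˣ, f (u : ZMod q).val
      = ∑ a ∈ range q, if Nat.Coprime (a + 1) q then f (a + 1) else 0 := by
  rw [← sum_filter]
  have hpos : ∀ u : (ZMod q)ˣ, 0 < (u : ZMod q).val := by
    intro u
    rcases Nat.eq_zero_or_pos (u : ZMod q).val with h | h
    · have := ZMod.val_coe_unit_coprime u
      rw [h, Nat.coprime_zero_left] at this
      omega
    · exact h
  refine sum_bij' (fun u _ => (u : ZMod q).val - 1)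
    (fun a ha => ZMod.unitOfCoprime (a + 1) (mem_filter.mp ha).2) ?_ ?_ ?_ ?_ ?_
  · intro u _
    have h1 := hpos u
    have h2 := ZMod.val_lt (u : ZMod q)
    rw [mem_filter, mem_range]
    refine ⟨by omega, ?_⟩
    have : (u : ZMod q).val - 1 + 1 = (u : ZMod q).val := by omega
    rw [this]
    exact ZMod.val_coe_unit_coprime u
  · intro a _; exact mem_univ _
  · intro u _
    have h1 := hpos u
    ext
    rw [ZMod.coe_unitOfCoprime]
    have : (u : ZMod q).val - 1 + 1 = (u : ZMod q).val := by omega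
    rw [this, ZMod.natCast_zmod_val]
  · intro a ha
    have h2 := (mem_filter.mp ha).2
    have h3 := mem_range.mp (mem_filter.mp ha).1
    simp only [ZMod.coe_unitOfCoprime]
    rcases Nat.lt_or_ge (a + 1) q with h | h
    · rw [ZMod.val_natCast_of_lt h]; omega
    · have : a + 1 = q := by omega
      rw [this] at h2
      rw [Nat.coprime_self] at h2
      omega
  · intro u _
    have h1 := hpos u
    congr 1
    omega

/-- the subgroup of `(ℤ/q)ˣ` of units congruent to a power of `p` modulo `m` -/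
def Hp {q m : ℕ} (hm : m ∣ q) (P : (ZMod m)ˣ) : Subgroup (ZMod q)ˣ :=
  (Subgroup.zpowers P).comap (ZMod.unitsMap hm)

/-- `log Γ(u/q)` for a unit `u` modulo `q` -/
noncomputable def lgu (q : ℕ) (u : (ZMod q)ˣ) : ℝ := lg q (u : ZMod q).val

open Classical in
/-- the relation for a coset -/
theorem coset_relation {L : IntermediateField ℚ ℂ} (hL : Closed L) {p v m : ℕ} (hp : p.Prime)
    (hv : 0 < v) (hm : 0 < m) (hpm : Nat.Coprime p m) {q : ℕ} [NeZero q] (hq : q = p ^ v * m)
    (u₀ : (ZMod q)ˣ) :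
    (∑ u : (ZMod q)ˣ, if u ∈ Hp (Dvd.intro_left _ hq.symm : m ∣ q) (ZMod.unitOfCoprime p hpm)
      then lgu q (u₀ * u) else 0) ∈ W hL := by
  obtain ⟨w, rfl⟩ : ∃ w, v = w + 1 := ⟨v - 1, by omega⟩
  have hmq : m ∣ q := Dvd.intro_left _ hq.symm
  have hp0 : 0 < p := hp.pos
  have hq1 : 1 < q := by
    rw [hq, pow_succ]
    have h1 : 0 < p ^ w := pow_pos hp0 w
    have h2 : 2 ≤ p := hp.two_le
    nlinarith [Nat.mul_le_mul (Nat.mul_le_mul h1 h2) hm]
  set P := ZMod.unitOfCoprime p hpm with hP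
  set C : Set (ZMod m) := {c | ∃ h ∈ Subgroup.zpowers P, c = ((ZMod.unitsMap hmq u₀ * h : (ZMod m)ˣ) : ZMod m)}
    with hC
  -- stability under multiplication by `p`
  have hstab : ∀ c : ZMod m, (p : ZMod m) * c ∈ C ↔ c ∈ C := by
    intro c
    have hPc : (P : ZMod m) = p := ZMod.coe_unitOfCoprime p hpm
    constructor
    · rintro ⟨h, hh, hc⟩
      refine ⟨P⁻¹ * h, mul_mem (inv_mem (Subgroup.mem_zpowers P)) hh, ?_⟩
      have : c = ((P⁻¹ : (ZMod m)ˣ) : ZMod m) * (p * c) := by
        rw [← mul_assoc, ← hPc, Units.inv_mul, one_mul]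
      rw [this, hc, ← Units.val_mul]
      congr 1
      rw [mul_left_comm]
    · rintro ⟨h, hh, hc⟩
      refine ⟨P * h, mul_mem (Subgroup.mem_zpowers P) hh, ?_⟩
      rw [hc, ← hPc, ← Units.val_mul]
      congr 1
      rw [mul_left_comm]
  -- the two distribution relations
  have d1 := dist hL (n := p ^ (w + 1)) (m := m) (pow_pos hp0 _) hm C
  have d0 := dist hL (n := p ^ w) (m := m) (pow_pos hp0 _) hm C
  have d := sub_mem d1 d0
  rw [sub_sub_sub_cancel_right] at d
  have hqw : p ^ (w + 1) * m = (p ^ w * m) * p := by rw [pow_succ]; ring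
  have e0 : (∑ b ∈ range (p ^ w * m), if ((b + 1 : ℕ) : ZMod m) ∈ C then lg (p ^ w * m) (b + 1) else 0)
      = ∑ a ∈ range (p ^ (w + 1) * m),
        if p ∣ a + 1 then (if ((a + 1 : ℕ) : ZMod m) ∈ C then lg (p ^ (w + 1) * m) (a + 1) else 0)
          else 0 := by
    rw [hqw]
    rw [sum_mult (fun a => if ((a : ℕ) : ZMod m) ∈ C then lg (p ^ w * m * p) a else 0) hp0]
    refine sum_congr rfl fun k _ => ?_
    have h1 : (((k + 1) * p : ℕ) : ZMod m) = (p : ZMod m) * ((k + 1 : ℕ) : ZMod m) := by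
      push_cast; ring
    rw [h1]
    simp only [hstab]
    congr 1
    rw [mul_comm (p ^ w * m) p, mul_comm (k + 1) p]
    exact (lg_reduce hp0).symm
  rw [e0, ← sum_sub_distrib, ← hq] at d
  -- rewrite the target
  have e1 : (∑ u : (ZMod q)ˣ, if u ∈ Hp hmq P then lgu q (u₀ * u) else 0)
      = ∑ u : (ZMod q)ˣ, if (((u : ZMod q).val : ℕ) : ZMod m) ∈ C then lg q (u : ZMod q).val else 0 := by
    refine Fintype.sum_equiv (Equiv.mulLeft u₀) _ _ fun u => ?_
    simp only [Equiv.coe_mulLeft]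
    have h1 : ((((u₀ * u : (ZMod q)ˣ) : ZMod q).val : ℕ) : ZMod m)
        = ((ZMod.unitsMap hmq (u₀ * u) : (ZMod m)ˣ) : ZMod m) := by
      rw [ZMod.unitsMap_def, Units.coe_map, ZMod.natCast_val]
      rfl
    have h2 : ((((u₀ * u : (ZMod q)ˣ) : ZMod q).val : ℕ) : ZMod m) ∈ C ↔ u ∈ Hp hmq P := by
      rw [h1]
      constructor
      · rintro ⟨h, hh, hc⟩
        have := Units.ext hc
        rw [map_mul, mul_right_inj] at this
        change ZMod.unitsMap hmq u ∈ Subgroup.zpowers P
        rw [this]; exact hh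
      · intro hu
        exact ⟨ZMod.unitsMap hmq u, hu, by rw [map_mul]⟩
    simp only [h2]
    rfl
  rw [e1, sum_units (fun a => if ((a : ℕ) : ZMod m) ∈ C then lg q a else 0) hq1]
  convert d using 2 with a _
  by_cases hc : ((a + 1 : ℕ) : ZMod m) ∈ C
  · have hcm : Nat.Coprime (a + 1) m := by
      obtain ⟨h, _, hh⟩ := hc
      rw [← ZMod.isUnit_iff_coprime, hh]
      exact Units.isUnit _
    simp only [hc, if_true]
    by_cases hpa : p ∣ a + 1
    · rw [if_neg, if_pos hpa, sub_self]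
      intro h
      have : p ∣ 1 := by
        rw [← h]
        exact Nat.dvd_gcd hpa (hq ▸ Dvd.dvd.mul_right (dvd_pow_self p (Nat.succ_ne_zero w)) m)
      exact hp.one_lt.ne' (Nat.dvd_one.mp this)
    · rw [if_pos, if_neg hpa, sub_zero]
      rw [hq]
      exact Nat.Coprime.mul_right (Nat.Coprime.pow_right _
        ((Nat.Prime.coprime_iff_not_dvd hp).mpr hpa).symm) hcm
  · simp only [hc, if_false, ite_self, sub_self]

/-- the reflection relation for units -/
theorem reflect_unit {L : IntermediateField ℚ ℂ} (hL : Closed L) {q : ℕ} [NeZero q] (hq : 1 < q)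
    (u : (ZMod q)ˣ) : lgu q u + lgu q (-u) ∈ W hL := by
  have : Fact (1 < q) := ⟨hq⟩
  unfold lgu
  have hne : (u : ZMod q) ≠ 0 := u.ne_zero
  have h1 : 0 < (u : ZMod q).val := by
    rw [Nat.pos_iff_ne_zero, Ne, ZMod.val_eq_zero]; exact hne
  have h2 := ZMod.val_lt (u : ZMod q)
  rw [Units.val_neg, ZMod.neg_val, if_neg hne]
  exact reflect hL h1 (by omega) (by omega)

end Pool.Agent.X274.LR
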