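import Pool.Agent.X274.LR.Gauss

/-! Distribution relations for log Gamma modulo logarithms of a relatively algebraically
closed subfield. -/

namespace Pool.Agent.X274.LR

open Real

/-- `L` is algebraically closed in `ℂ` and contains `π`. -/
structure Closed (L : IntermediateField ℚ ℂ) : Prop where
  pi : ((Real.pi : ℝ) : ℂ) ∈ L
  alg : ∀ z : ℂ, IsAlgebraic L z → z ∈ L

variable {L : IntermediateField ℚ ℂ}

theorem Closed.root (hL : Closed L) {z : ℂ} {n : ℕ} (hn : 0 < n) (h : z ^ n ∈ L) : z ∈ L := by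
  refine hL.alg z (IsAlgebraic.of_pow hn ?_)
  exact isAlgebraic_algebraMap (⟨z ^ n, h⟩ : L)

/-- real numbers whose exponential is in `L` -/
def W (hL : Closed L) : Submodule ℚ ℝ where
  carrier := {t | ((Real.exp t : ℝ) : ℂ) ∈ L}
  add_mem' := by
    intro a b ha hb
    simp only [Set.mem_ofPred_eq, Real.exp_add, Complex.ofReal_mul] at *
    exact mul_mem ha hb
  zero_mem' := by simp
  smul_mem' := by
    intro c t ht
    simp only [Set.mem_ofPred_eq] at *
    refine hL.root (n := c.den) c.den_pos ?_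
    have h1 : (((Real.exp (c • t) : ℝ) : ℂ)) ^ c.den = (((Real.exp t : ℝ) : ℂ)) ^ c.num := by
      rw [← Complex.ofReal_pow, ← Complex.ofReal_zpow, ← Real.exp_nat_mul, ← Real.rpow_intCast,
        ← Real.exp_mul]
      congr 2
      rw [Rat.smul_def]
      have : (c.den : ℝ) * (c : ℝ) = c.num := by
        have := Rat.den_mul_eq_num c
        exact_mod_cast this
      rw [← mul_assoc, this, mul_comm]
    rw [h1]
    exact zpow_mem ht _

theorem mem_W (hL : Closed L) {t : ℝ} : t ∈ W hL ↔ ((Real.exp t : ℝ) : ℂ) ∈ L := Iff.rfl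

theorem log_mem_W (hL : Closed L) {x : ℝ} (hx : 0 < x) : Real.log x ∈ W hL ↔ (x : ℂ) ∈ L := by
  rw [mem_W, Real.exp_log hx]

theorem log_nat_mem (hL : Closed L) (n : ℕ) : Real.log n ∈ W hL := by
  rcases Nat.eq_zero_or_pos n with h | h
  · subst h; simp
  · rw [log_mem_W hL (by exact_mod_cast h)]
    simpa using natCast_mem L n

theorem rat_mul_mem (hL : Closed L) (c : ℚ) {t : ℝ} (ht : t ∈ W hL) : (c : ℝ) * t ∈ W hL := by
  have := (W hL).smul_mem c ht
  rwa [Rat.smul_def] at this

theorem log_pi_mem (hL : Closed L) : Real.log π ∈ W hL := by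
  rw [log_mem_W hL Real.pi_pos]; exact hL.pi

theorem I_mem (hL : Closed L) : Complex.I ∈ L := by
  refine hL.root (n := 2) two_pos ?_
  rw [Complex.I_sq]
  exact neg_mem (one_mem L)

theorem exp_mem (hL : Closed L) (x : ℚ) : Complex.exp (π * x * Complex.I) ∈ L := by
  refine hL.root (n := 2 * x.den) (by have := x.den_pos; omega) ?_
  have : Complex.exp (π * x * Complex.I) ^ (2 * x.den) = 1 := by
    rw [← Complex.exp_nat_mul, Complex.exp_eq_one_iff]
    refine ⟨x.num, ?_⟩
    have h1 : (x.den : ℂ) * (x : ℂ) = x.num := by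
      have := Rat.den_mul_eq_num x
      exact_mod_cast this
    push_cast
    linear_combination (2 * π * Complex.I) * h1
  rw [this]
  exact one_mem L

theorem log_sin_mem (hL : Closed L) (x : ℚ) (hx : 0 < x) (hx1 : x < 1) :
    Real.log (Real.sin (π * x)) ∈ W hL := by
  have hx' : (0 : ℝ) < x := by exact_mod_cast hx
  have hx1' : (x : ℝ) < 1 := by exact_mod_cast hx1
  have hpos : 0 < Real.sin (π * x) := by
    apply Real.sin_pos_of_pos_of_lt_pi
    · have := Real.pi_pos; positivity
    · have := Real.pi_pos; nlinarith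
  rw [log_mem_W hL hpos]
  have h : ((Real.sin (π * x) : ℝ) : ℂ)
      = ((Complex.exp (π * x * Complex.I))⁻¹ - Complex.exp (π * x * Complex.I)) * Complex.I / 2 := by
    rw [Complex.ofReal_sin, Complex.sin, ← Complex.exp_neg]
    push_cast
    ring_nf
  rw [h]
  have h2 : (2 : ℂ) ∈ L := by simpa using natCast_mem L 2
  exact div_mem (mul_mem (sub_mem (inv_mem (exp_mem hL x)) (exp_mem hL x)) (I_mem hL)) h2

/-- reflection formula -/
theorem reflection (hL : Closed L) (x : ℚ) (hx : 0 < x) (hx1 : x < 1) :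
    Real.log (Real.Gamma x) + Real.log (Real.Gamma (1 - x)) ∈ W hL := by
  have hx' : (0 : ℝ) < x := by exact_mod_cast hx
  have hx1' : (x : ℝ) < 1 := by exact_mod_cast hx1
  have h1 : 0 < Real.Gamma x := Real.Gamma_pos_of_pos hx'
  have h2 : 0 < Real.Gamma (1 - x) := Real.Gamma_pos_of_pos (by linarith)
  rw [← Real.log_mul h1.ne' h2.ne', Real.Gamma_mul_Gamma_one_sub, Real.log_div Real.pi_pos.ne']
  · exact sub_mem (log_pi_mem hL) (log_sin_mem hL x hx hx1)
  · apply ne_of_gt
    apply Real.sin_pos_of_pos_of_lt_pi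
    · have := Real.pi_pos; positivity
    · have := Real.pi_pos; nlinarith

/-- the constant of the multiplication formula -/
theorem log_gC_mem (hL : Closed L) {n : ℕ} (hn : 0 < n) : Real.log (gC n) ∈ W hL := by
  have hn' : (0 : ℝ) < n := by exact_mod_cast hn
  obtain ⟨m, rfl⟩ : ∃ m, n = m + 1 := ⟨n - 1, by omega⟩
  have h1 : Real.log (gC (m + 1))
      = ∑ k ∈ Finset.range m, Real.log (Real.Gamma (((1 : ℝ) + k) / ((m + 1 : ℕ) : ℝ))) := by
    rw [gC, Real.log_prod (fun k _ => (Real.Gamma_pos_of_pos (by positivity)).ne'),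
      Finset.sum_range_succ]
    have : ((1 : ℝ) + m) / ((m + 1 : ℕ) : ℝ) = 1 := by
      push_cast; field_simp; ring
    rw [this]; simp
  have h2 : ∑ k ∈ Finset.range m, Real.log (Real.Gamma (((1 : ℝ) + k) / ((m + 1 : ℕ) : ℝ)))
      = ∑ k ∈ Finset.range m,
        Real.log (Real.Gamma (1 - ((1 : ℝ) + k) / ((m + 1 : ℕ) : ℝ))) := by
    rw [← Finset.sum_range_reflect]
    refine Finset.sum_congr rfl fun k hk => ?_
    have hk := Finset.mem_range.mp hk
    congr 2
    have : ((m - 1 - k : ℕ) : ℝ) = m - 1 - k := by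
      rw [Nat.cast_sub (by omega), Nat.cast_sub (by omega)]; simp
    rw [this]
    push_cast
    field_simp
    ring
  have h3 : ∑ k ∈ Finset.range m, (Real.log (Real.Gamma (((1 : ℝ) + k) / ((m + 1 : ℕ) : ℝ)))
      + Real.log (Real.Gamma (1 - ((1 : ℝ) + k) / ((m + 1 : ℕ) : ℝ)))) ∈ W hL := by
    refine Submodule.sum_mem _ fun k hk => ?_
    have hk := Finset.mem_range.mp hk
    have := reflection hL (((1 : ℚ) + k) / ((m + 1 : ℕ) : ℚ)) (by positivity) (by
      rw [div_lt_one (by positivity)]; push_cast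
      have : (k : ℚ) < m := by exact_mod_cast hk
      linarith)
    push_cast at this ⊢
    exact this
  rw [Finset.sum_add_distrib, ← h2, ← h1, ← two_mul] at h3
  have h4 := rat_mul_mem hL (1/2) h3
  have e : (((1 / 2 : ℚ) : ℝ)) * (2 * Real.log (gC (m + 1))) = Real.log (gC (m + 1)) := by
    push_cast; ring
  rwa [e] at h4

/-- multiplication formula modulo `W` -/
theorem mult (hL : Closed L) {n : ℕ} (hn : 0 < n) (x : ℚ) (hx : 0 < x) :
    (∑ k ∈ Finset.range n, Real.log (Real.Gamma (((x : ℝ) + k) / n)))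
      - Real.log (Real.Gamma x) ∈ W hL := by
  rw [gauss hn (by exact_mod_cast hx)]
  have e : Real.log (Real.Gamma x) + ((1 - (x : ℝ)) * Real.log n + Real.log (gC n))
      - Real.log (Real.Gamma x) = (((1 - x : ℚ)) : ℝ) * Real.log n + Real.log (gC n) := by
    push_cast; ring
  rw [e]
  exact add_mem (rat_mul_mem hL _ (log_nat_mem hL n)) (log_gC_mem hL hn)

/-- `log Γ(a/q)` -/
noncomputable def lg (q a : ℕ) : ℝ := Real.log (Real.Gamma ((a : ℝ) / q))

theorem sum_blocks {A : Type*} [AddCommMonoid A] (f : ℕ → A) (n m : ℕ) :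
    ∑ a ∈ Finset.range (n * m), f a = ∑ b ∈ Finset.range m, ∑ k ∈ Finset.range n, f (k * m + b) := by
  induction n with
  | zero => simp
  | succ n ih =>
    rw [Nat.succ_mul, Finset.sum_range_add, ih, ← Finset.sum_add_distrib]
    refine Finset.sum_congr rfl fun b _ => ?_
    rw [Finset.sum_range_succ]

open Classical in
/-- **distribution relation**, for a set `C` of classes modulo `m` -/
theorem dist (hL : Closed L) {n m : ℕ} (hn : 0 < n) (hm : 0 < m) (C : Set (ZMod m)) :
    (∑ a ∈ Finset.range (n * m), if ((a + 1 : ℕ) : ZMod m) ∈ C then lg (n * m) (a + 1) else 0)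
      - (∑ b ∈ Finset.range m, if ((b + 1 : ℕ) : ZMod m) ∈ C then lg m (b + 1) else 0) ∈ W hL := by
  rw [sum_blocks, ← Finset.sum_sub_distrib]
  refine Submodule.sum_mem _ fun b _ => ?_
  have h1 : ∀ k : ℕ, ((k * m + b + 1 : ℕ) : ZMod m) = ((b + 1 : ℕ) : ZMod m) := by
    intro k; push_cast; simp
  simp_rw [h1]
  split_ifs with h
  · have := mult hL hn (((b + 1 : ℕ) : ℚ) / m) (by positivity)
    convert this using 2
    · refine Finset.sum_congr rfl fun k _ => ?_
      unfold lg
      congr 2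
      have hm' : (m : ℝ) ≠ 0 := by positivity
      have hn' : (n : ℝ) ≠ 0 := by positivity
      push_cast
      field_simp
      ring
    · unfold lg; push_cast; rfl
  · simp

end Pool.Agent.X274.LR
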