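import Pool.Agent.X274.LR.Trdeg

/-! The case `q = 14`. -/

namespace Pool.Agent.X274.LR

open Cardinal

/-- The field `F_q` of the problem: generated over `ℚ` by `π` and the numbers `Γ(a/q)`,
`1 ≤ a ≤ q - 1`, `gcd(a,q) = 1`. -/
noncomputable def gammaField (q : ℕ) : IntermediateField ℚ ℂ :=
  IntermediateField.adjoin ℚ ({(Real.pi : ℂ)} ∪
    {z | ∃ a : ℕ, 1 ≤ a ∧ a ≤ q - 1 ∧ Nat.gcd a q = 1 ∧ z = Complex.Gamma ((a : ℂ) / (q : ℂ))})

theorem gamma_mem {L : IntermediateField ℚ ℂ} (hL : Closed L) {q a : ℕ} (hq : 0 < q) (ha : 0 < a) :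
    Complex.Gamma ((a : ℂ) / (q : ℂ)) ∈ L ↔ lg q a ∈ W hL := by
  unfold lg
  rw [log_mem_W hL (Real.Gamma_pos_of_pos (by positivity)), ← Complex.Gamma_ofReal]
  push_cast
  rfl

theorem gammaField_le {L : IntermediateField ℚ ℂ} (hL : Closed L) {q : ℕ}
    (h : ∀ a, 1 ≤ a → a ≤ q - 1 → Nat.gcd a q = 1 → lg q a ∈ W hL) : gammaField q ≤ L := by
  unfold gammaField
  rw [IntermediateField.adjoin_le_iff]
  rintro z (hz | ⟨a, h1, h2, h3, rfl⟩)
  · rw [Set.mem_singleton_iff] at hz
    subst hz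
    exact hL.pi
  · exact (gamma_mem hL (by omega) h1).mpr (h a h1 h2 h3)

theorem lg_reduce {k q a : ℕ} (hk : 0 < k) : lg (k * q) (k * a) = lg q a := by
  unfold lg
  push_cast
  rw [mul_div_mul_left _ _ (by positivity)]

theorem reflect {L : IntermediateField ℚ ℂ} (hL : Closed L) {q a b : ℕ} (ha : 0 < a) (hb : 0 < b)
    (hab : a + b = q) : lg q a + lg q b ∈ W hL := by
  have hq : (0 : ℚ) < q := by exact_mod_cast (by omega : 0 < q)
  have h := reflection hL ((a : ℚ) / q) (by positivity) (by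
    rw [div_lt_one hq]; exact_mod_cast (by omega : a < q))
  have e : (1 : ℝ) - ((a : ℝ) / q) = (b : ℝ) / q := by
    have hq' : (0 : ℝ) < q := by exact_mod_cast (by omega : 0 < q)
    subst hab
    push_cast
    have : (0 : ℝ) < (a : ℝ) + b := by positivity
    field_simp
    ring
  unfold lg
  push_cast at h
  rwa [e] at h

theorem relation14 {L : IntermediateField ℚ ℂ} (hL : Closed L) :
    lg 14 1 + lg 14 9 + lg 14 11 ∈ W hL := by
  have h := dist hL (n := 2) (m := 7) (by norm_num) (by norm_num) {1, 2, 4}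
  have e1 : lg 14 2 = lg 7 1 := lg_reduce (k := 2) (q := 7) (a := 1) (by norm_num)
  have e2 : lg 14 4 = lg 7 2 := lg_reduce (k := 2) (q := 7) (a := 2) (by norm_num)
  have e3 : lg 14 8 = lg 7 4 := lg_reduce (k := 2) (q := 7) (a := 4) (by norm_num)
  have c : ∀ a : ℕ, (((a + 1 : ℕ) : ZMod 7) ∈ ({1, 2, 4} : Set (ZMod 7))) ↔
      ((a + 1) % 7 = 1 ∨ (a + 1) % 7 = 2 ∨ (a + 1) % 7 = 4) := by
    intro a
    have h1 : ((1 : ZMod 7)) = ((1 : ℕ) : ZMod 7) := by norm_num
    have h2 : ((2 : ZMod 7)) = ((2 : ℕ) : ZMod 7) := by norm_num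
    have h4 : ((4 : ZMod 7)) = ((4 : ℕ) : ZMod 7) := by norm_num
    rw [Set.mem_insert_iff, Set.mem_insert_iff, Set.mem_singleton_iff, h1, h2, h4,
      ZMod.natCast_eq_natCast_iff', ZMod.natCast_eq_natCast_iff', ZMod.natCast_eq_natCast_iff']
  simp only [c] at h
  norm_num [Finset.sum_range_succ] at h
  rw [e1, e2, e3] at h
  convert h using 1
  ring

theorem fourteen : Algebra.trdeg ℚ (gammaField 14) ≤ ((Nat.totient 14 / 2 : ℕ) : Cardinal) := by
  classical
  set s : Finset ℂ := {(Real.pi : ℂ), Complex.Gamma ((3 : ℕ) / (14 : ℕ)),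
    Complex.Gamma ((5 : ℕ) / (14 : ℕ))} with hs
  have hpi : (Real.pi : ℂ) ∈ (s : Set ℂ) := by simp [hs]
  have hL := closed_clos hpi
  have h3 : lg 14 3 ∈ W hL := by
    rw [← gamma_mem hL (by norm_num) (by norm_num)]
    exact subset_clos _ (by simp [hs])
  have h5 : lg 14 5 ∈ W hL := by
    rw [← gamma_mem hL (by norm_num) (by norm_num)]
    exact subset_clos _ (by simp [hs])
  have h11 : lg 14 11 ∈ W hL :=
    (Submodule.add_mem_iff_right _ h3).mp (reflect hL (by norm_num) (by norm_num) (by norm_num))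
  have h9 : lg 14 9 ∈ W hL :=
    (Submodule.add_mem_iff_right _ h5).mp (reflect hL (by norm_num) (by norm_num) (by norm_num))
  have h1 : lg 14 1 ∈ W hL := by
    have h := relation14 hL
    rw [add_assoc] at h
    exact (Submodule.add_mem_iff_left _ (add_mem h9 h11)).mp h
  have h13 : lg 14 13 ∈ W hL :=
    (Submodule.add_mem_iff_right _ h1).mp (reflect hL (by norm_num) (by norm_num) (by norm_num))
  have hle : gammaField 14 ≤ clos (s : Set ℂ) := by
    refine gammaField_le hL fun a ha1 ha2 ha3 => ?_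
    interval_cases a <;> first | assumption | (exfalso; revert ha3; decide)
  refine (trdeg_le hle).trans ?_
  have hc : s.card ≤ 3 := Finset.card_le_three
  have ht : Nat.totient 14 / 2 = 3 := by decide
  rw [ht]
  exact_mod_cast hc

end Pool.Agent.X274.LR
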