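import Mathlib

/-! Gauss's multiplication formula (up to the value of the constant) by Bohr–Mollerup. -/

namespace Pool.Agent.X274.LR

open Real Set

/-- constant of the multiplication formula -/
noncomputable def gC (n : ℕ) : ℝ := ∏ k ∈ Finset.range n, Real.Gamma (((1 : ℝ) + k) / n)

/-- the auxiliary function -/
noncomputable def gF (n : ℕ) (s : ℝ) : ℝ :=
  (∏ k ∈ Finset.range n, Real.Gamma ((s + k) / n)) * (n : ℝ) ^ (s - 1) / gC n

theorem gC_pos {n : ℕ} (hn : 0 < n) : 0 < gC n := by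
  refine Finset.prod_pos fun k _ => Real.Gamma_pos_of_pos ?_
  have : (0 : ℝ) < n := by exact_mod_cast hn
  positivity

theorem gF_one {n : ℕ} (hn : 0 < n) : gF n 1 = 1 := by
  have h := (gC_pos hn).ne'
  simp only [gF, sub_self, rpow_zero, mul_one]
  exact div_self h

theorem gF_pos {n : ℕ} (hn : 0 < n) {y : ℝ} (hy : 0 < y) : 0 < gF n y := by
  have : (0 : ℝ) < n := by exact_mod_cast hn
  refine div_pos (mul_pos (Finset.prod_pos fun k _ => Real.Gamma_pos_of_pos ?_) ?_) (gC_pos hn)
  · positivity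
  · positivity

theorem prod_shift {n : ℕ} (hn : 0 < n) {y : ℝ} (hy : 0 < y) :
    ∏ k ∈ Finset.range n, Real.Gamma ((y + 1 + k) / n)
      = (y / n) * ∏ k ∈ Finset.range n, Real.Gamma ((y + k) / n) := by
  have hn' : (0 : ℝ) < n := by exact_mod_cast hn
  have h1 : ∀ k : ℕ, Real.Gamma ((y + 1 + k) / n) = Real.Gamma ((y + ((k + 1 : ℕ) : ℝ)) / n) := by
    intro k; congr 1; push_cast; ring
  simp_rw [h1]
  have h2 := Finset.prod_range_succ (fun k : ℕ => Real.Gamma ((y + (k : ℝ)) / n)) n
  have h3 := Finset.prod_range_succ' (fun k : ℕ => Real.Gamma ((y + (k : ℝ)) / n)) n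
  rw [h2] at h3
  have h4 : Real.Gamma ((y + (n : ℝ)) / n) = (y / n) * Real.Gamma (y / n) := by
    rw [← Real.Gamma_add_one (by positivity)]
    congr 1; field_simp
  have h5 : Real.Gamma (y / n) ≠ 0 := (Real.Gamma_pos_of_pos (by positivity)).ne'
  rw [h4] at h3
  simp only [Nat.cast_zero, add_zero] at h3
  have h6 : (∏ k ∈ Finset.range n, Real.Gamma ((y + ((k + 1 : ℕ) : ℝ)) / n)) * Real.Gamma (y / n)
     = ((y / n) * ∏ k ∈ Finset.range n, Real.Gamma ((y + k) / n)) * Real.Gamma (y / n) := by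
    rw [← h3]; ring
  exact mul_right_cancel₀ h5 h6

theorem gF_add_one {n : ℕ} (hn : 0 < n) {y : ℝ} (hy : 0 < y) : gF n (y + 1) = y * gF n y := by
  have hn' : (0 : ℝ) < n := by exact_mod_cast hn
  rw [gF, gF, prod_shift hn hy, show y + 1 - 1 = (y - 1) + 1 by ring, rpow_add_one hn'.ne']
  field_simp

theorem log_gF {n : ℕ} (hn : 0 < n) :
    EqOn (log ∘ gF n) (fun s => (∑ k ∈ Finset.range n, log (Real.Gamma ((s + k) / n)))
      + ((s - 1) * log n - log (gC n))) (Ioi 0) := by
  intro s hs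
  have hs : (0 : ℝ) < s := hs
  have hn' : (0 : ℝ) < n := by exact_mod_cast hn
  have h1 : ∀ k ∈ Finset.range n, Real.Gamma ((s + k) / n) ≠ 0 := fun k _ =>
    (Real.Gamma_pos_of_pos (by positivity)).ne'
  have h2 : (∏ k ∈ Finset.range n, Real.Gamma ((s + k) / n)) ≠ 0 := Finset.prod_ne_zero_iff.mpr h1
  have h3 : (n : ℝ) ^ (s - 1) ≠ 0 := (rpow_pos_of_pos hn' _).ne'
  simp only [Function.comp_apply, gF]
  rw [log_div (mul_ne_zero h2 h3) (gC_pos hn).ne', log_mul h2 h3, log_rpow hn', log_prod h1]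
  ring

theorem convex_piece {n : ℕ} (hn : 0 < n) (k : ℕ) :
    ConvexOn ℝ (Ioi (0 : ℝ)) (fun s => log (Real.Gamma ((s + k) / n))) := by
  have hn' : (0 : ℝ) < n := by exact_mod_cast hn
  have h := convexOn_log_Gamma
  refine ⟨convex_Ioi 0, ?_⟩
  intro x hx y hy a b ha hb hab
  have hx : (0 : ℝ) < x := hx
  have hy : (0 : ℝ) < y := hy
  have := h.2 (x := (x + k) / n) (y := (y + k) / n) (by simp only [mem_Ioi]; positivity)
    (by simp only [mem_Ioi]; positivity) ha hb hab
  have e : a • ((x + k) / n) + b • ((y + k) / n) = ((a • x + b • y) + k) / n := by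
    simp only [smul_eq_mul]
    have : (k : ℝ) = (a + b) * k := by rw [hab, one_mul]
    field_simp
    linear_combination -this
  rw [e] at this
  exact this

theorem convex_gF {n : ℕ} (hn : 0 < n) : ConvexOn ℝ (Ioi (0 : ℝ)) (log ∘ gF n) := by
  refine ConvexOn.congr ?_ (log_gF hn).symm
  refine ConvexOn.add ?_ ?_
  · have : ∀ S : Finset ℕ, ConvexOn ℝ (Ioi (0 : ℝ))
        (fun s => ∑ k ∈ S, log (Real.Gamma ((s + k) / n))) := by
      intro S
      induction S using Finset.induction_on with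
      | empty => simpa using convexOn_const (𝕜 := ℝ) (0 : ℝ) (convex_Ioi (0 : ℝ))
      | insert a S ha ih =>
        simp_rw [Finset.sum_insert ha]
        exact (convex_piece hn a).add ih
    exact this _
  · refine ⟨convex_Ioi 0, ?_⟩
    intro x hx y hy a b ha hb hab
    simp only [smul_eq_mul]
    have h1 : a = 1 - b := by linarith
    subst h1
    apply le_of_eq
    ring

/-- **Gauss's multiplication formula** with constant `gC n`. -/
theorem gauss {n : ℕ} (hn : 0 < n) {s : ℝ} (hs : 0 < s) :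
    (∑ k ∈ Finset.range n, log (Real.Gamma ((s + k) / n)))
      = log (Real.Gamma s) + ((1 - s) * log n + log (gC n)) := by
  have h := Real.eq_Gamma_of_log_convex (convex_gF hn)
    (fun {y} hy => gF_add_one hn hy) (fun {y} hy => gF_pos hn hy) (gF_one hn) hs
  have h2 := log_gF hn hs
  simp only [Function.comp_apply] at h2
  rw [h] at h2
  linarith

end Pool.Agent.X274.LR
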