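import Pool.Agent.X274.LR.Chars

/-! The general bound, and its consequences. -/

namespace Pool.Agent.X274.LR

open Finset

theorem clos_mono {s t : Set ℂ} (h : s ⊆ t) : clos s ≤ clos t := by
  intro z hz
  rw [mem_clos] at hz ⊢
  have hle : IntermediateField.adjoin ℚ s ≤ IntermediateField.adjoin ℚ t :=
    IntermediateField.adjoin.mono ℚ s t h
  let _ : Algebra (IntermediateField.adjoin ℚ s) (IntermediateField.adjoin ℚ t) :=
    (IntermediateField.inclusion hle).toRingHom.toAlgebra
  have : IsScalarTower (IntermediateField.adjoin ℚ s) (IntermediateField.adjoin ℚ t) ℂ :=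
    IsScalarTower.of_algebraMap_eq fun x => rfl
  exact hz.tower_top _

/-- odd characters modulo `q` without a vanishing Euler factor at a prime dividing `q` -/
abbrev openChars (q : ℕ) : Type :=
  {χ : DirichletCharacter ℂ q // χ.Odd ∧ ∀ p : ℕ, p.Prime → p ∣ q → χ.primitiveCharacter p ≠ 1}

theorem general {q : ℕ} [NeZero q] (hq : 2 < q) :
    Algebra.trdeg ℚ (gammaField q) ≤ ((1 + Nat.card (openChars q) : ℕ) : Cardinal) := by
  classical
  have hL0 : Closed (clos {(Real.pi : ℂ)}) := closed_clos (Set.mem_singleton _)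
  set F : (ZMod q)ˣ → ℝ ⧸ W hL0 := fun u => (W hL0).mkQ (lgu q u) with hF
  set S : Set (Subgroup (ZMod q)ˣ) :=
    {H | ∃ (p v m : ℕ) (_ : p.Prime) (_ : 0 < v) (_ : 0 < m) (hpm : Nat.Coprime p m)
      (hqq : q = p ^ v * m), m = q / p ^ q.factorization p ∧
      H = Hp (Dvd.intro_left _ hqq.symm : m ∣ q) (ZMod.unitOfCoprime p hpm)} with hS
  obtain ⟨T, hT1, hT2⟩ := rank_le F (fun u => by
      simp only [hF]
      rw [← map_add, Submodule.mkQ_apply, Submodule.Quotient.mk_eq_zero]
      exact reflect_unit hL0 (by omega) u) S (by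
      rintro H ⟨p, v, m, hp, hv, hm, hpm, hqq, _, rfl⟩ u₀
      have h := coset_relation hL0 hp hv hm hpm hqq u₀
      rw [← Submodule.Quotient.mk_eq_zero, ← Submodule.mkQ_apply, map_sum] at h
      refine Eq.trans ?_ h
      refine sum_congr rfl fun u _ => ?_
      split_ifs <;> simp [hF])
  set s : Finset ℂ := insert (Real.pi : ℂ)
    (T.image fun u : (ZMod q)ˣ => Complex.Gamma (((u : ZMod q).val : ℂ) / (q : ℂ))) with hs
  have hscard : s.card ≤ 1 + T.card := by
    rw [hs, add_comm]
    exact (card_insert_le _ _).trans (Nat.add_le_add_right card_image_le 1)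
  have hL : Closed (clos (s : Set ℂ)) := closed_clos (by simp [hs])
  have hmono : clos {(Real.pi : ℂ)} ≤ clos (s : Set ℂ) := clos_mono (by simp [hs])
  have hW : W hL0 ≤ W hL := fun t ht => hmono ht
  have hall : ∀ u : (ZMod q)ˣ, lgu q u ∈ W hL := by
    intro u
    have h1 := hT1 u
    have h2 : F '' (T : Set (ZMod q)ˣ) = (W hL0).mkQ '' (lgu q '' (T : Set (ZMod q)ˣ)) := by
      rw [Set.image_image]
    rw [h2, ← Submodule.map_span] at h1
    obtain ⟨y, hy, hy2⟩ := h1
    have h3 : y ∈ W hL := by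
      refine (Submodule.span_le.mpr ?_) hy
      rintro _ ⟨w, hw, rfl⟩
      rw [SetLike.mem_coe]
      unfold lgu
      rw [← gamma_mem hL (by omega)]
      · exact subset_clos _ (by
          rw [hs, coe_insert, coe_image]
          exact Or.inr ⟨w, hw, rfl⟩)
      · have : Fact (1 < q) := ⟨by omega⟩
        rw [Nat.pos_iff_ne_zero, Ne, ZMod.val_eq_zero]
        exact w.ne_zero
    have h4 : y - lgu q u ∈ W hL0 := by
      rw [← Submodule.Quotient.mk_eq_zero, ← Submodule.mkQ_apply, map_sub, sub_eq_zero]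
      exact hy2
    have h5 := sub_mem h3 (hW h4)
    rwa [sub_sub_cancel] at h5
  have hle : gammaField q ≤ clos (s : Set ℂ) := by
    refine gammaField_le hL fun a ha1 ha2 ha3 => ?_
    have h1 := hall (ZMod.unitOfCoprime a ha3)
    unfold lgu at h1
    rwa [ZMod.coe_unitOfCoprime, ZMod.val_natCast_of_lt (by omega)] at h1
  refine (trdeg_le hle).trans ?_
  rw [Nat.cast_le]
  refine hscard.trans (Nat.add_le_add_left (hT2.trans ?_) 1)
  have : Finite (openChars q) := Subtype.finite
  refine Nat.card_le_card_of_injective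
    (fun χ => (⟨χ.1, χ.2.1, ?_⟩ : openChars q)) ?_
  · intro p hp hpq hone
    have : Fact p.Prime := ⟨hp⟩
    rw [← DirichletCharacter.mem_subgroupOfPrimitiveMapToOne_iff] at hone
    unfold DirichletCharacter.subgroupOfPrimitiveMapToOne at hone
    obtain ⟨ψ, hψ, hψ2⟩ := hone
    have hcop := Nat.coprime_ordCompl hp (NeZero.ne q)
    have hmem : Hp (Dvd.intro_left _ (Nat.ordProj_mul_ordCompl_eq_self q p) : (q / p ^ q.factorization p) ∣ q)
        (ZMod.unitOfCoprime p hcop) ∈ S :=
      ⟨p, q.factorization p, q / p ^ q.factorization p, hp,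
        hp.factorization_pos_of_dvd (NeZero.ne q) hpq, Nat.ordCompl_pos p (NeZero.ne q), hcop,
        (Nat.ordProj_mul_ordCompl_eq_self q p).symm, rfl, rfl⟩
    obtain ⟨h, hh, hne⟩ := χ.2.2 _ hmem
    apply hne
    rw [← hψ2]
    rw [DirichletCharacter.changeLevel_eq_cast_of_dvd]
    have h1 : ZMod.unitsMap (Dvd.intro_left _ (Nat.ordProj_mul_ordCompl_eq_self q p) :
        (q / p ^ q.factorization p) ∣ q) h ∈ Subgroup.zpowers (ZMod.unitOfCoprime p hcop) := hh
    obtain ⟨k, hk⟩ := h1
    have h2 := congrArg (fun u => ψ ((u : (ZMod _)ˣ) : ZMod _)) hk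
    simp only [ZMod.unitsMap_val] at h2
    rw [← h2]
    have h3 : ψ (p : ZMod _) = 1 := by
      have := DirichletCharacter.mem_annihilator_iff.mp hψ _ (Set.mem_singleton _)
      rwa [ZMod.coe_unitOfCoprime] at this
    have h4 : ψ.toUnitHom (ZMod.unitOfCoprime p hcop) = 1 := by
      ext
      rw [MulChar.coe_toUnitHom, ZMod.coe_unitOfCoprime, h3, Units.val_one]
    have h5 : ψ.toUnitHom ((ZMod.unitOfCoprime p hcop) ^ k) = 1 := by
      rw [map_zpow, h4, one_zpow]
    have h6 := congrArg Units.val h5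
    rwa [MulChar.coe_toUnitHom, Units.val_one] at h6
  · intro x y hxy
    have := congrArg Subtype.val hxy
    exact Subtype.ext this

/-- Half of the characters are odd. -/
theorem card_odd {q : ℕ} [NeZero q] (hq : 2 < q) :
    2 * Nat.card {χ : DirichletCharacter ℂ q // χ.Odd} = Nat.totient q := by
  classical
  have hne : (-1 : ZMod q) ≠ 1 := by
    have : Fact (2 < q) := ⟨hq⟩
    exact ZMod.neg_one_ne_one
  have h := DirichletCharacter.sum_characters_eq_zero ℂ hne
  have hcard : Nat.card (DirichletCharacter ℂ q) = Nat.totient q :=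
    DirichletCharacter.card_eq_totient_of_hasEnoughRootsOfUnity ℂ q
  rw [Nat.card_eq_fintype_card] at hcard
  have h1 : ∀ χ : DirichletCharacter ℂ q, χ (-1) = if χ.Odd then (-1 : ℂ) else 1 := by
    intro χ
    split_ifs with ho
    · exact ho
    · exact (χ.even_or_odd).resolve_right ho
  simp_rw [h1] at h
  rw [sum_ite, sum_const, sum_const] at h
  have h2 : (univ.filter fun χ : DirichletCharacter ℂ q => χ.Odd).card
      + (univ.filter fun χ : DirichletCharacter ℂ q => ¬ χ.Odd).card = Nat.totient q := by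
    rw [← hcard, card_filter_add_card_filter_not]
    rfl
  have h3 : ((univ.filter fun χ : DirichletCharacter ℂ q => χ.Odd).card : ℂ)
      = (univ.filter fun χ : DirichletCharacter ℂ q => ¬ χ.Odd).card := by
    simp only [nsmul_eq_mul] at h
    linear_combination -h
  have h4 : (univ.filter fun χ : DirichletCharacter ℂ q => χ.Odd).card
      = (univ.filter fun χ : DirichletCharacter ℂ q => ¬ χ.Odd).card := by exact_mod_cast h3
  rw [Nat.card_eq_fintype_card, Fintype.card_subtype]
  omega

/-- If an odd character `ψ` of level dividing `q` has value `1` at a prime dividing `q`, the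
inequality fails for `q`. -/
theorem fails {q d : ℕ} [NeZero q] (hq : 2 < q) (hd : d ∣ q) (ψ : DirichletCharacter ℂ d)
    (hψ : ψ.Odd) {p : ℕ} (hp : p.Prime) (hpq : p ∣ q) (h1 : ψ p = 1) :
    Algebra.trdeg ℚ (gammaField q) ≤ ((Nat.totient q / 2 : ℕ) : Cardinal) := by
  refine (general hq).trans ?_
  rw [Nat.cast_le]
  have hfin : Finite {χ : DirichletCharacter ℂ q // χ.Odd} := Subtype.finite
  have hfin2 : Finite (openChars q) := Subtype.finite
  set χ₀ := DirichletCharacter.changeLevel hd ψ with hχ₀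
  have hodd : χ₀.Odd := by
    have e : ((-1 : (ZMod q)ˣ) : ZMod q) = -1 := by simp
    have h2 := DirichletCharacter.changeLevel_eq_cast_of_dvd ψ hd (-1 : (ZMod q)ˣ)
    rw [e] at h2
    rw [DirichletCharacter.Odd, hχ₀, h2]
    have h3 : ((-1 : ZMod q).cast : ZMod d) = -1 := by
      rw [ZMod.cast_neg hd, ZMod.cast_one hd]
    rw [h3]
    exact hψ
  have hprim : χ₀.primitiveCharacter p = 1 := by
    have h2 := DirichletCharacter.primitiveCharacter_changeLevel_apply hd ψ (p : ℤ)
    rw [Int.cast_natCast, Int.cast_natCast] at h2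
    rw [hχ₀, h2]
    have hcop : IsCoprime (p : ℤ) d := by
      rw [← DirichletCharacter.apply_ne_zero_iff ψ, Int.cast_natCast, h1]
      exact one_ne_zero
    have h3 := DirichletCharacter.primitiveCharacter_apply_of_isCoprime (χ := ψ) hcop
    rw [Int.cast_natCast, Int.cast_natCast] at h3
    rw [h3, h1]
  have hlt : Nat.card (openChars q) < Nat.card {χ : DirichletCharacter ℂ q // χ.Odd} := by
    have f1 := Fintype.ofFinite {χ : DirichletCharacter ℂ q // χ.Odd}
    have f2 := Fintype.ofFinite (openChars q)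
    rw [Nat.card_eq_fintype_card, Nat.card_eq_fintype_card]
    refine Fintype.card_lt_of_injective_of_notMem
      (fun χ : openChars q => (⟨χ.1, χ.2.1⟩ : {χ : DirichletCharacter ℂ q // χ.Odd})) ?_
      (b := ⟨χ₀, hodd⟩) ?_
    · intro x y hxy
      have h2 := congrArg (fun z : {χ : DirichletCharacter ℂ q // χ.Odd} => z.1) hxy
      exact Subtype.ext h2
    · rintro ⟨χ, hχ⟩
      have h2 : χ.1 = χ₀ := congrArg Subtype.val hχ
      have h3 := χ.2.2 p hp hpq
      rw [h2] at h3
      exact h3 hprim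
  have hc := card_odd hq
  omega

instance fact7 : Fact (Nat.Prime 7) := ⟨by norm_num⟩

/-- The quadratic character modulo `7`. -/
noncomputable def psi7 : DirichletCharacter ℂ 7 :=
  (quadraticChar (ZMod 7)).ringHomComp (Int.castRingHom ℂ)

theorem psi7_odd : psi7.Odd := by
  have h : quadraticChar (ZMod 7) (-1) = -1 := by decide
  unfold DirichletCharacter.Odd psi7
  rw [MulChar.ringHomComp_apply, h]
  simp

theorem psi7_two : psi7 (2 : ℕ) = 1 := by
  have h : quadraticChar (ZMod 7) ((2 : ℕ) : ZMod 7) = 1 := by decide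
  unfold psi7
  rw [MulChar.ringHomComp_apply, h]
  simp

/-- The inequality fails for every multiple of `14`. -/
theorem multiples {q : ℕ} (hq : 0 < q) (h : 14 ∣ q) :
    Algebra.trdeg ℚ (gammaField q) ≤ ((Nat.totient q / 2 : ℕ) : Cardinal) := by
  have : NeZero q := ⟨hq.ne'⟩
  have h7 : 7 ∣ q := dvd_trans (by norm_num) h
  have h2 : 2 ∣ q := dvd_trans (by norm_num) h
  have h14 : 14 ≤ q := Nat.le_of_dvd hq h
  exact fails (by omega) h7 psi7 psi7_odd Nat.prime_two h2 psi7_two

end Pool.Agent.X274.LR
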