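import Pool.Agent.X274.LR.Dist

/-! Bounds for the transcendence degree. -/

namespace Pool.Agent.X274.LR

open Cardinal
open scoped IntermediateField.algebraAdjoinAdjoin

/-- The relative algebraic closure of `ℚ(s)` in `ℂ`. -/
noncomputable def clos (s : Set ℂ) : IntermediateField ℚ ℂ :=
  (algebraicClosure (IntermediateField.adjoin ℚ s) ℂ).restrictScalars ℚ

theorem mem_clos {s : Set ℂ} {z : ℂ} : z ∈ clos s ↔ IsAlgebraic (IntermediateField.adjoin ℚ s) z := by
  unfold clos
  rw [IntermediateField.mem_restrictScalars]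
  exact mem_algebraicClosure_iff

theorem subset_clos (s : Set ℂ) : s ⊆ clos s := by
  intro z hz
  rw [SetLike.mem_coe, mem_clos]
  exact isAlgebraic_algebraMap (⟨z, IntermediateField.subset_adjoin ℚ s hz⟩ :
    IntermediateField.adjoin ℚ s)

theorem closed_clos {s : Set ℂ} (hs : (Real.pi : ℂ) ∈ s) : Closed (clos s) := by
  refine ⟨subset_clos s hs, fun z hz => ?_⟩
  rw [mem_clos]
  have h : IsAlgebraic (algebraicClosure (IntermediateField.adjoin ℚ s) ℂ) z := hz
  have : Algebra.IsAlgebraic (IntermediateField.adjoin ℚ s)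
    (algebraicClosure (IntermediateField.adjoin ℚ s) ℂ) := inferInstance
  exact h.restrictScalars _

theorem trdeg_le {E : IntermediateField ℚ ℂ} {s : Finset ℂ} (h : E ≤ clos (s : Set ℂ)) :
    Algebra.trdeg ℚ E ≤ (s.card : Cardinal) := by
  unfold Algebra.trdeg
  refine ciSup_le' fun t => ?_
  have ht := t.2.map' (f := E.val) Subtype.val_injective
  have hinj : Function.Injective (E.val ∘ ((↑) : t.1 → E)) :=
    Subtype.val_injective.comp Subtype.val_injective
  have h1 : (AlgebraicIndependent.matroid ℚ ℂ).Indep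
      (Set.range (E.val ∘ ((↑) : t.1 → E))) := ht.to_subtype_range
  have h2 : Set.range (E.val ∘ ((↑) : t.1 → E)) ⊆
      (AlgebraicIndependent.matroid ℚ ℂ).closure (s : Set ℂ) := by
    rw [AlgebraicIndependent.matroid_closure_eq]
    rintro _ ⟨x, rfl⟩
    have h3 := h x.1.2
    rw [mem_clos] at h3
    rw [SetLike.mem_coe, Subalgebra.mem_algebraicClosure]
    exact (IsFractionRing.isAlgebraic_iff (Algebra.adjoin ℚ (s : Set ℂ))
      (IntermediateField.adjoin ℚ (s : Set ℂ)) ℂ).mpr h3
  have h4 := h1.encard_le_eRk_of_subset h2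
  rw [Matroid.eRk_closure_eq] at h4
  have h5 := h4.trans (Matroid.eRk_le_encard _ _)
  rw [Set.encard_coe_eq_coe_finsetCard, ← Set.toENat_cardinalMk, Cardinal.toENat_le_natCast,
    Cardinal.mk_range_eq _ hinj] at h5
  exact h5

end Pool.Agent.X274.LR
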